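import Pool.Agent.W42.RG.Defs

set_option autoImplicit false
set_option linter.unusedSectionVars false
set_option linter.unusedVariables false

/-!
S_HYP: reduction to the sets invariant under the expanding and contracting directions.
-/

namespace Pool.Agent.W177.LX

open Finset Filter Topology MeasureTheory Pool.Agent.W42.RN Pool.Agent.W42.RL Pool.Agent.W42.RG

section gen

variable {X : Type} [MeasurableSpace X] {μ : Measure X} [IsProbabilityMeasure μ]

/-- a bound in the mean -/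
theorem L_update_le_int {P : ℤ → X → X} (hP : Act μ P) {N : ℕ} {U : Ultrafilter (Fin N → ℤ)}
    {f : Fin N → X → ℂ} (hf : ∀ i, Bd (f i)) (K : ℝ) (hK1 : 1 ≤ K) (hK : ∀ i p, ‖f i p‖ ≤ K)
    (j : Fin N) {h : X → ℂ} (hh : Bd h) :
    ‖L μ P U (Function.update f j h)‖ ≤ K ^ N * ∫ p, ‖h p‖ ∂μ := by
  refine le_of_tendsto (tendsto_L (Bd.update hf j hh)).norm (Eventually.of_forall fun n => ?_)
  unfold C
  have hb := Bd.prod univ (fun i (_ : i ∈ univ) =>
    (Bd.update hf j hh i).comp (hP.mp (n i)).measurable)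
  have hb2 : Bd fun p => h (P (n j) p) := hh.comp (hP.mp (n j)).measurable
  refine (norm_integral_le_integral_norm _).trans ?_
  rw [← comp_int (hP.mp (n j)) (g := fun p => ‖h p‖) hh.meas.norm, ← integral_const_mul]
  refine integral_mono hb.int.norm (hb2.int.norm.const_mul _) fun p => ?_
  refine (norm_prod_le_factor _ j K hK1 fun i hi => ?_).trans ?_
  · rw [Function.update_of_ne hi]; exact hK _ _
  · rw [Function.update_self]

theorem pw_symm (T : X ≃ᵐ X) (m : ℤ) : pw T.symm (-m) = pw T m := by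
  unfold pw
  have e : (T.symm.toEquiv : Equiv.Perm X) = (T.toEquiv : Equiv.Perm X)⁻¹ := rfl
  rw [e, inv_zpow', neg_neg]

/-- the opposite time vector -/
def ng {N : ℕ} (n : Fin N → ℤ) : Fin N → ℤ := fun i => -n i

theorem L_symm {T : X ≃ᵐ X} {N : ℕ} (U : Ultrafilter (Fin N → ℤ)) {f : Fin N → X → ℂ}
    (hf : ∀ i, Bd (f i)) :
    L μ (pw T) U f = L μ (pw T.symm) (U.map ng) f := by
  apply L_eq hf
  have h := tendsto_L (μ := μ) (P := pw T.symm) (U := U.map ng) hf
  rw [Ultrafilter.coe_map, tendsto_map'_iff] at h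
  refine h.congr fun n => ?_
  simp only [Function.comp_apply]
  unfold C ng
  simp_rw [pw_symm]

theorem map_neg_spread {N : ℕ} {U : Ultrafilter (Fin N → ℤ)}
    (hU : (U : Filter (Fin N → ℤ)) ≤ spread N) :
    ((U.map ng : Ultrafilter (Fin N → ℤ)) : Filter (Fin N → ℤ)) ≤ spread N := by
  rw [Ultrafilter.coe_map]
  intro s hs
  rw [Filter.mem_map]
  apply hU
  obtain ⟨M, hM⟩ := mem_spread.1 hs
  refine mem_spread.2 ⟨M, fun n hn => ?_⟩
  apply hM
  intro i j hij
  have h1 := hn i j hij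
  unfold ng
  rw [← neg_sub', abs_neg]
  exact h1

theorem symm_conj' {𝔤 : Type} [LieRing 𝔤] [LieAlgebra ℝ 𝔤] {E : 𝔤 → X → X} {T : X ≃ᵐ X}
    (hT : MeasurePreserving T μ μ) (A : 𝔤 ≃ₗ[ℝ] 𝔤)
    (h : ∀ Y, Same μ (T ∘ E Y) (E (A Y) ∘ T)) (Y : 𝔤) :
    Same μ (T.symm ∘ E Y) (E (A.symm Y) ∘ T.symm) := by
  have hT' : MeasurePreserving T.symm μ μ := hT.symm T
  have h1 := h (A.symm Y)
  rw [A.apply_symm_apply] at h1
  have g1 := (h1.symm.left (R := T.symm) T.symm.measurable).right hT'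
  have e1 : (T.symm ∘ (E Y ∘ T)) ∘ T.symm = T.symm ∘ E Y := by
    funext p
    simp only [Function.comp_apply, T.apply_symm_apply]
  have e2 : (T.symm ∘ (T ∘ E (A.symm Y))) ∘ T.symm = E (A.symm Y) ∘ T.symm := by
    funext p
    simp only [Function.comp_apply, T.symm_apply_apply]
  rw [e1, e2] at g1
  exact g1

/-- coboundaries are orthogonal to the invariant sets -/
theorem cob_int {S : X → X} (hS : MeasurePreserving S μ μ) {h : X → ℂ} (hh : Bd h) {B : Set X}
    (hB : MeasurableSet B) (hinv : S ⁻¹' B =ᵐ[μ] B) : ∫ p in B, (h p - h (S p)) ∂μ = 0 := by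
  have hb : Bd fun p => h (S p) := hh.comp hS.measurable
  rw [integral_sub hh.int.integrableOn hb.int.integrableOn, sub_eq_zero]
  have e1 : ∫ p in B, h (S p) ∂μ = ∫ p in S ⁻¹' B, h (S p) ∂μ := setIntegral_congr_set hinv.symm
  rw [e1, ← integral_indicator hB, ← integral_indicator (hS.measurable hB)]
  have e2 : (S ⁻¹' B).indicator (fun p => h (S p)) = fun p => B.indicator h (S p) := by
    funext p
    by_cases hp : S p ∈ B
    · rw [Set.indicator_of_mem (show p ∈ S ⁻¹' B from hp), Set.indicator_of_mem hp]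
    · rw [Set.indicator_of_notMem (show p ∉ S ⁻¹' B from hp), Set.indicator_of_notMem hp]
  rw [e2, comp_int hS (g := B.indicator h) (hh.meas.indicator hB)]

end gen

/-- step functions -/
theorem approx_on {X : Type} {m : MeasurableSpace X} [mX : MeasurableSpace X] {μ : Measure X}
    [IsProbabilityMeasure μ] (hm : m ≤ mX) {f : X → ℂ} (hf : BdOn m f) (ε : ℝ) (hε : 0 < ε) :
    ∃ g ∈ Submodule.span ℂ {g : X → ℂ | ∃ A, MeasurableSet[m] A ∧ g = ind A},
      Bd g ∧ ∀ p, ‖(f - g) p‖ ≤ ε := by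
  have hprob : @IsProbabilityMeasure X m (μ.trim hm) := by
    refine @IsProbabilityMeasure.mk X m (μ.trim hm) ?_
    rw [trim_measurableSet_eq hm (@MeasurableSet.univ X m)]
    exact measure_univ
  obtain ⟨g, hg, hgB, hfg⟩ := @approx_inv X m (μ.trim hm) hprob (fun _ => id) f
    (⟨@Bd.mk X m f hf.1 hf.2, fun u => Filter.EventuallyEq.refl _ _⟩ :
      f ∈ @InvF X m (μ.trim hm) (fun _ => id)) ε hε
  refine ⟨g, ?_, ⟨(@Bd.meas X m g hgB).mono hm le_rfl, @Bd.bdd X m g hgB⟩, hfg⟩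
  refine Submodule.span_mono ?_ hg
  rintro _ ⟨A, hA, rfl⟩
  exact ⟨A, hA.1, rfl⟩

theorem t_HYP (hCE : S_CE) (hDENS : S_DENS) (hONE : S_ONE) : S_HYP := by
  intro X _ 𝔤 _ _ _ _ _ _ _ μ _ E hE T hT A hc k hmix
  have hP := act_pw hT
  have hmle := mK_le μ E (ctr A ∪ ctr A.symm)
  apply gaps_of_mixAll hT
  intro f hf
  rw [tendsto_iff_ultrafilter]
  intro U hU
  -- expanding directions
  have L1 : ∀ (F : Fin (k + 1) → X → ℂ), (∀ i, Bd (F i)) → ∀ (j : Fin (k + 1)) (u : X → ℂ), Bd u →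
      (∀ B : Set X, MeasurableSet[mK μ E (ctr A.symm)] B → ∫ p in B, u p ∂μ = 0) →
      L μ (pw T) U (Function.update F j u) = 0 := fun F hF j u hu h =>
    hONE X 𝔤 μ E hE T hT A hc (k + 1) U hU F hF j u hu h
  -- contracting directions
  have L2 : ∀ (F : Fin (k + 1) → X → ℂ), (∀ i, Bd (F i)) → ∀ (j : Fin (k + 1)) (u : X → ℂ), Bd u →
      (∀ B : Set X, MeasurableSet[mK μ E (ctr A)] B → ∫ p in B, u p ∂μ = 0) →
      L μ (pw T) U (Function.update F j u) = 0 := by
    intro F hF j u hu h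
    rw [L_symm U (Bd.update hF j hu)]
    have hc' : ∀ Y, Same μ (T.symm ∘ E Y) (E (A.symm Y) ∘ T.symm) := symm_conj' hT A hc
    have h1 := hONE X 𝔤 μ E hE T.symm (hT.symm T) A.symm hc' (k + 1)
      (U.map ng) (map_neg_spread hU) F hF j u hu
    rw [LinearEquiv.symm_symm] at h1
    exact h1 h
  -- both
  have L3 : ∀ (F : Fin (k + 1) → X → ℂ), (∀ i, Bd (F i)) → ∀ (j : Fin (k + 1)) (u : X → ℂ), Bd u →
      (∀ B : Set X, MeasurableSet[mK μ E (ctr A ∪ ctr A.symm)] B → ∫ p in B, u p ∂μ = 0) →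
      L μ (pw T) U (Function.update F j u) = 0 := by
    intro F hF j u hu h
    obtain ⟨K, hK1, hK⟩ := Bd.common hF
    have hspan : ∀ g ∈ Submodule.span ℂ {g : X → ℂ | ∃ (i : {Y : 𝔤 // Y ∈ ctr A ∪ ctr A.symm})
        (h : X → ℂ), Bd h ∧ g = fun p => h p - h (E i.1 p)},
        Bd g ∧ L μ (pw T) U (Function.update F j g) = 0 := by
      intro g hg
      induction hg using Submodule.span_induction with
      | mem g hg =>
        obtain ⟨⟨Y, hY⟩, h, hh, rfl⟩ := hg
        have hgB : Bd fun p => h p - h (E Y p) := hh.sub (hh.comp (hE.mp Y).measurable)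
        refine ⟨hgB, ?_⟩
        rcases hY with hY | hY
        · exact L2 F hF j _ hgB fun B hB => cob_int (hE.mp Y) hh hB.1 (hB.2 Y hY)
        · exact L1 F hF j _ hgB fun B hB => cob_int (hE.mp Y) hh hB.1 (hB.2 Y hY)
      | zero =>
        have hz : Bd (0 : X → ℂ) := Bd.const 0
        refine ⟨hz, ?_⟩
        have := L_smul (μ := μ) (P := pw T) (U := U) hF j hz 0
        simpa using this
      | add g h _ _ hg hh =>
        refine ⟨hg.1.add hh.1, ?_⟩
        rw [L_add hP hF j hg.1 hh.1, hg.2, hh.2, add_zero]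
      | smul c g _ hg =>
        refine ⟨hg.1.smul c, ?_⟩
        rw [L_smul hF j hg.1 c, hg.2, mul_zero]
    have hle : ∀ ε : ℝ, 0 < ε → ‖L μ (pw T) U (Function.update F j u)‖ ≤ ε := by
      intro ε hε
      obtain ⟨g, hg, hgB, hug⟩ := hDENS X {Y : 𝔤 // Y ∈ ctr A ∪ ctr A.symm} μ (fun i => E i.1)
        (fun i => hE.mp i.1) u hu (fun B hB hinv => h B ⟨hB, fun Y hY => hinv ⟨Y, hY⟩⟩)
        (ε / K ^ (k + 1)) (by positivity)
      have e : u = (u - g) + g := by rw [sub_add_cancel]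
      have h3 := L_add (μ := μ) (U := U) hP hF j (hu.sub hgB) hgB
      rw [← e, (hspan g hg).2, add_zero] at h3
      rw [h3]
      refine (L_update_le_int hP hF K hK1 hK j (hu.sub hgB)).trans ?_
      have hKp : 0 < K ^ (k + 1) := by positivity
      calc K ^ (k + 1) * ∫ p, ‖(u - g) p‖ ∂μ ≤ K ^ (k + 1) * (ε / K ^ (k + 1)) :=
            mul_le_mul_of_nonneg_left hug hKp.le
        _ = ε := by field_simp
    have h4 : ‖L μ (pw T) U (Function.update F j u)‖ ≤ 0 :=
      le_of_forall_pos_le_add fun η hη => by simpa using hle η hη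
    exact norm_le_zero_iff.1 h4
  suffices hD : ∀ f : Fin (k + 1) → X → ℂ, (∀ i, f i ∈ {f : X → ℂ | Bd f}) →
      Def μ (pw T) U f = 0 by
    have h3 := hD f hf
    unfold Def at h3
    rw [← sub_eq_zero.1 h3]
    exact tendsto_L hf
  have hML : ML (Def μ (pw T) U) := ml_def hP
  have hBdOn : ∀ g : X → ℂ, BdOn (mK μ E (ctr A ∪ ctr A.symm)) g → Bd g := fun g hg => ⟨hg.1.mono hmle le_rfl, hg.2⟩
  -- indicator functions
  have D0 : ∀ f : Fin (k + 1) → X → ℂ,
      (∀ i, f i ∈ {g : X → ℂ | ∃ B, MeasurableSet[mK μ E (ctr A ∪ ctr A.symm)] B ∧ g = ind B}) → Def μ (pw T) U f = 0 := by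
    intro f hf
    choose B hB hfB using hf
    have hfe : f = fun i => ind (B i) := funext hfB
    have h3 := (spread_of_gaps hT hmix B fun i => ⟨(hB i).1, hB i⟩).mono_left hU
    unfold Def
    rw [sub_eq_zero, hfe]
    apply L_eq fun i => ind_bd (hB i).1
    simp_rw [C_ind hP fun i => (hB i).1, int_ind (hB _).1]
    have h4 := (Complex.continuous_ofReal.tendsto _).comp h3
    have e : ((∏ i, μ.real (B i) : ℝ) : ℂ) = ∏ i, ((μ.real (B i) : ℝ) : ℂ) := by push_cast; rfl
    rw [e] at h4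
    exact h4
  -- functions measurable for the invariant sets
  have D1 : ∀ f : Fin (k + 1) → X → ℂ, (∀ i, f i ∈ {g : X → ℂ | BdOn (mK μ E (ctr A ∪ ctr A.symm)) g}) →
      Def μ (pw T) U f = 0 := by
    apply upgrade hML _ _ (by rintro f ⟨A, hA, rfl⟩; exact ind_bd hA.1)
      (fun f hf => hBdOn f hf) _ D0
    intro f hf η hη
    obtain ⟨g, hg, hgB, hfg⟩ := approx_on (μ := μ) hmle hf (η / 2) (by positivity)
    refine ⟨g, hg, fun K hK1 F hF hFK j => ?_⟩
    have hh : Bd (f - g) := (hBdOn f hf).sub hgB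
    unfold Def
    refine (norm_sub_le _ _).trans ?_
    have h3 := L_update_le hP hF K hK1 hFK j hh (η / 2) hfg (U := U)
    have h4 := prod_update_le (μ := μ) K hK1 hFK j (f - g)
    have h5 : ‖∫ p, (f - g) p ∂μ‖ ≤ η / 2 := norm_int_le _ hfg
    have h6 : K ^ (k + 1) ≤ K ^ (k + 1 + 1) := pow_le_pow_right₀ hK1 (by omega)
    have h7 : 0 ≤ K ^ (k + 1) := by positivity
    have h8 : K ^ (k + 1) * ‖∫ p, (f - g) p ∂μ‖ ≤ K ^ (k + 1) * (η / 2) :=
      mul_le_mul_of_nonneg_left h5 h7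
    nlinarith
  -- all functions
  apply upgrade hML {g : X → ℂ | BdOn (mK μ E (ctr A ∪ ctr A.symm)) g} _ (fun f hf => hBdOn f hf) (fun f hf => hf) _ D1
  intro f hf η hη
  obtain ⟨g, hg, hfg⟩ := hCE X _ μ hmle f hf
  refine ⟨g, Submodule.subset_span hg, fun K hK1 F hF hFK j => ?_⟩
  have hgB := hBdOn g hg
  have hh : Bd (f - g) := Bd.sub hf hgB
  have h3 : L μ (pw T) U (Function.update F j (f - g)) = 0 := L3 F hF j (f - g) hh hfg
  have h4 : ∫ p, (f - g) p ∂μ = 0 := by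
    have := hfg Set.univ (@MeasurableSet.univ X (mK μ E (ctr A ∪ ctr A.symm)))
    rw [setIntegral_univ] at this
    exact this
  unfold Def
  rw [h3, prod_int_update, h4, zero_mul, sub_zero, norm_zero]
  positivity

end Pool.Agent.W177.LX
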